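import Pool.Agent.H1.PshA

open Pool.Agent.H1.Psh

theorem Pool.Agent.Results.MP_725b87_an.Q2False.result (n : ℕ) (hn : 1 ≤ n) :
    ∃ φ : EuclideanSpace ℂ (Fin n) → ℝ, Continuous φ ∧
      PSH (Metric.ball 0 1) (fun z => (φ z : EReal)) ∧
      ∀ U : Set (EuclideanSpace ℂ (Fin n)), IsOpen U → IsPreconnected U → Metric.ball 0 1 ⊆ U →
        ∀ u : EuclideanSpace ℂ (Fin n) → EReal, PSH U u →
          (∀ z ∈ noTest (Metric.ball 0 1) φ, u z = ⊥) → ∀ z ∈ U, u z = ⊥ := by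
  refine ⟨fun z => max (‖z‖ ^ 2) (1 / 4), by fun_prop, phi_psh _, fun U hU hc hb u hu h => ?_⟩
  have h1 := ball_bot hn hu (r := 1 / 2) (by norm_num)
    ((Metric.closedBall_subset_ball (by norm_num)).trans hb)
    fun z hz => h z (sphere_noTest z (mem_sphere_zero_iff_norm.1 hz))
  refine all_bot hU hc hu ⟨0, hb (Metric.mem_ball_self one_pos), ?_⟩
  exact mem_interior.2 ⟨Metric.ball 0 (1 / 2), fun z hz => h1 z (Metric.ball_subset_closedBall hz),
    Metric.isOpen_ball, Metric.mem_ball_self (by norm_num)⟩
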